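import Pool.Agent.helper48.AN.SpecD

/-! # Project an, modules DJ0, KC, KD: expansion in the dual basis -/

namespace AN

open scoped Classical

theorem DJ0_cfom {R : Type} [CommRing R] {g : ℕ} (γ : Fin g → ℕ) (a : ℕ → LS R) (n m : ℤ) :
    cf (om γ a n) m = if m = n then 1 else
      if -1 ≤ m ∧ ¬ Gp γ (m + 1).toNat then -cf (a (m + 1).toNat) (-1 - n) else 0 := rfl

theorem DJ0_omGE {R : Type} [CommRing R] {g : ℕ} (γ : Fin g → ℕ) (a : ℕ → LS R) (n : ℤ) :
    om γ a n ∈ GE R (min n (-1)) := by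
  intro m hm
  rw [DJ0_cfom, if_neg (by omega), if_neg (by omega)]

theorem DJ0_fst {R : Type} [CommRing R] {g : ℕ} (γ : Fin g → ℕ) (a : ℕ → LS R)
    (hcoef : ∀ r r' : ℕ, ¬ Gp γ r → ¬ Gp γ r' → cf (a r) (-(r' : ℤ)) = if r = r' then 1 else 0)
    (n : ℤ) (hn : n ≤ -2 ∨ ∃ i, n = (γ i : ℤ) - 1) (r : ℕ) (hr : ¬ Gp γ r) :
    res (a r * om γ a n) = 0 := by
  obtain ⟨N0, hN0⟩ := exists_lb_nat (a r)
  have hnr : n ≠ (r : ℤ) - 1 := by
    intro h
    rcases hn with h1 | ⟨i, h1⟩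
    · omega
    · exact hr ⟨i, by omega⟩
  set N : ℕ := N0 + r + n.natAbs + 1 with hN
  have hGE : a r ∈ GE R (-(N : ℤ)) := fun m hm => hN0 m (by omega)
  unfold res
  rw [mul_comm, cf_mul_finset (om γ a n) (a r) (-1) (DJ0_omGE γ a n) hGE]
  have hterm : ∀ i ∈ Finset.Icc (min n (-1)) (-1 - -(N : ℤ)),
      cf (om γ a n) i * cf (a r) (-1 - i) = (if i = n then cf (a r) (-1 - n) else 0) +
        (if i = (r : ℤ) - 1 then -cf (a r) (-1 - n) else 0) := by
    intro i _
    rw [DJ0_cfom]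
    by_cases h1 : i = n
    · rw [if_pos h1, if_pos h1, if_neg (by rw [h1]; exact hnr), h1]; ring
    rw [if_neg h1, if_neg h1]
    by_cases h2 : -1 ≤ i ∧ ¬ Gp γ (i + 1).toNat
    · rw [if_pos h2]
      have h3 : (-1 - i : ℤ) = -(((i + 1).toNat : ℕ) : ℤ) := by omega
      rw [h3, hcoef r _ hr h2.2]
      by_cases h4 : r = (i + 1).toNat
      · rw [if_pos h4, if_pos (by omega), ← h4]; ring
      · rw [if_neg h4, if_neg (by omega)]; ring
    · rw [if_neg h2, if_neg]
      · ring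
      · intro h3
        apply h2
        refine ⟨by omega, ?_⟩
        have : (i + 1).toNat = r := by omega
        rw [this]; exact hr
  rw [Finset.sum_congr rfl hterm, Finset.sum_add_distrib, Finset.sum_ite_eq', Finset.sum_ite_eq',
    if_pos (by rw [Finset.mem_Icc]; omega), if_pos (by rw [Finset.mem_Icc]; omega)]
  ring

/-- an element supported outside `S` with zero residues against the `a r` is zero -/
theorem DJ0_zero {R : Type} [CommRing R] {g : ℕ} (γ : Fin g → ℕ) (a : ℕ → LS R)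
    (hcoef : ∀ r r' : ℕ, ¬ Gp γ r → ¬ Gp γ r' → cf (a r) (-(r' : ℤ)) = if r = r' then 1 else 0)
    (η : LS R) (h1 : ∀ m : ℤ, (m ≤ -2 ∨ ∃ i, m = (γ i : ℤ) - 1) → cf η m = 0)
    (h2 : ∀ r, ¬ Gp γ r → res (a r * η) = 0) : η = 0 := by
  have key : ∀ r, ¬ Gp γ r → cf η ((r : ℤ) - 1) = 0 := by
    intro r hr
    obtain ⟨N1, hN1⟩ := exists_lb_nat η
    obtain ⟨N2, hN2⟩ := exists_lb_nat (a r)
    have e1 : η ∈ GE R (-(N1 : ℤ) - 1) := fun m hm => hN1 m (by omega)
    have e2 : a r ∈ GE R (-((N2 + r : ℕ) : ℤ)) := fun m hm => hN2 m (by omega)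
    have h3 := h2 r hr
    unfold res at h3
    rw [mul_comm, cf_mul_finset η (a r) (-1) e1 e2] at h3
    have hterm : ∀ i ∈ Finset.Icc (-(N1 : ℤ) - 1) (-1 - -((N2 + r : ℕ) : ℤ)),
        cf η i * cf (a r) (-1 - i) = (if i = (r : ℤ) - 1 then cf η i else 0) := by
      intro i _
      by_cases h4 : i ≤ -2 ∨ ∃ j, i = (γ j : ℤ) - 1
      · rw [h1 i h4, zero_mul]; simp
      · have h5 : -1 ≤ i := by
          by_contra h
          exact h4 (Or.inl (by omega))
        have h6 : ¬ Gp γ (i + 1).toNat := by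
          rintro ⟨j, hj⟩
          exact h4 (Or.inr ⟨j, by omega⟩)
        have h3 : (-1 - i : ℤ) = -(((i + 1).toNat : ℕ) : ℤ) := by omega
        rw [h3, hcoef r _ hr h6]
        by_cases h7 : r = (i + 1).toNat
        · rw [if_pos h7, if_pos (by omega), mul_one]
        · rw [if_neg h7, if_neg (by omega), mul_zero]
    rw [Finset.sum_congr rfl hterm, Finset.sum_ite_eq', if_pos (by rw [Finset.mem_Icc]; omega)] at h3
    exact h3
  apply LS.ext
  intro m
  rw [cf_zero]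
  by_cases h4 : m ≤ -2 ∨ ∃ j, m = (γ j : ℤ) - 1
  · exact h1 m h4
  · have h5 : -1 ≤ m := by
      by_contra h
      exact h4 (Or.inl (by omega))
    have h6 : ¬ Gp γ (m + 1).toNat := by
      rintro ⟨j, hj⟩
      exact h4 (Or.inr ⟨j, by omega⟩)
    have h7 := key _ h6
    have h8 : (((m + 1).toNat : ℕ) : ℤ) - 1 = m := by omega
    rw [h8] at h7
    exact h7

theorem DJ0_cfS {R : Type} [CommRing R] {g : ℕ} (γ : Fin g → ℕ) (a : ℕ → LS R) (n m : ℤ)
    (hm : m ≤ -2 ∨ ∃ i, m = (γ i : ℤ) - 1) : cf (om γ a n) m = if m = n then 1 else 0 := by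
  rw [DJ0_cfom]
  by_cases h : m = n
  · rw [if_pos h, if_pos h]
  · rw [if_neg h, if_neg h, if_neg]
    rintro ⟨h1, h2⟩
    rcases hm with h3 | ⟨i, h3⟩
    · omega
    · exact h2 ⟨i, by omega⟩

theorem DJ0 : DJ0_stmt := by
  intro R _ g γ a hinj hpos h0 hcoef
  refine ⟨fun n hn r hr => DJ0_fst γ a hcoef n hn r hr, ?_⟩
  intro M η hη hM
  rw [← sub_eq_zero]
  apply DJ0_zero γ a hcoef
  · intro m hm
    rw [cf_sub, cf_add, cf_sum, cf_sum]
    simp only [cf_smul]
    rcases hm with hm | ⟨j, hj⟩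
    · have e1 : ∑ n ∈ Finset.Icc (-(M : ℤ)) (-2), cf η n * cf (om γ a n) m =
          ∑ n ∈ Finset.Icc (-(M : ℤ)) (-2), if n = m then cf η n else 0 := by
        refine Finset.sum_congr rfl fun n _ => ?_
        rw [DJ0_cfS γ a n m (Or.inl hm)]
        by_cases h : m = n
        · rw [if_pos h, if_pos h.symm, mul_one]
        · rw [if_neg h, if_neg (fun h' => h h'.symm), mul_zero]
      have e2 : ∑ i, cf η ((γ i : ℤ) - 1) * cf (om γ a ((γ i : ℤ) - 1)) m = 0 := by
        refine Finset.sum_eq_zero fun i _ => ?_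
        rw [DJ0_cfS γ a _ m (Or.inl hm), if_neg (by omega), mul_zero]
      rw [e1, e2, Finset.sum_ite_eq']
      by_cases h : -(M : ℤ) ≤ m
      · rw [if_pos (by rw [Finset.mem_Icc]; omega)]; ring
      · rw [if_neg (by rw [Finset.mem_Icc]; omega), hM m (by omega)]; ring
    · have hm : m ≤ -2 ∨ ∃ i, m = (γ i : ℤ) - 1 := Or.inr ⟨j, hj⟩
      have e1 : ∑ n ∈ Finset.Icc (-(M : ℤ)) (-2), cf η n * cf (om γ a n) m = 0 := by
        refine Finset.sum_eq_zero fun n hn => ?_
        rw [Finset.mem_Icc] at hn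
        rw [DJ0_cfS γ a n m hm, if_neg (by omega), mul_zero]
      have e2 : ∑ i, cf η ((γ i : ℤ) - 1) * cf (om γ a ((γ i : ℤ) - 1)) m =
          ∑ i, if i = j then cf η ((γ i : ℤ) - 1) else 0 := by
        refine Finset.sum_congr rfl fun i _ => ?_
        rw [DJ0_cfS γ a _ m hm]
        by_cases h : i = j
        · rw [if_pos (by rw [h]; exact hj), if_pos h, mul_one]
        · rw [if_neg, if_neg h, mul_zero]
          intro h'
          apply h
          apply hinj
          omega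
      rw [e1, e2, Finset.sum_ite_eq', if_pos (Finset.mem_univ _), hj]; ring
  · intro r hr
    rw [mul_sub, mul_add, Finset.mul_sum, Finset.mul_sum, res_sub, res_add, res_sum, res_sum, hη r hr]
    have e1 : ∑ n ∈ Finset.Icc (-(M : ℤ)) (-2), res (a r * cf η n • om γ a n) = 0 := by
      refine Finset.sum_eq_zero fun n hn => ?_
      rw [Finset.mem_Icc] at hn
      rw [mul_smul_comm, res_smul, DJ0_fst γ a hcoef n (Or.inl (by omega)) r hr, mul_zero]
    have e2 : ∑ i, res (a r * cf η ((γ i : ℤ) - 1) • om γ a ((γ i : ℤ) - 1)) = 0 := by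
      refine Finset.sum_eq_zero fun i _ => ?_
      rw [mul_smul_comm, res_smul, DJ0_fst γ a hcoef _ (Or.inr ⟨i, rfl⟩) r hr, mul_zero]
    rw [e1, e2]; ring

theorem KC : KC_stmt := by
  intro R _ g γ a hK η hη
  obtain ⟨M, hM⟩ := exists_lb_nat η
  have hr : ∀ r, ¬ Gp γ r → res (a r * η) = 0 := fun r hr =>
    hη _ (Submodule.subset_span ⟨r, hr, rfl⟩)
  rw [(DJ0 R g γ a hK.inj hK.pos hK.one hK.coef).2 M η hr hM]
  refine Submodule.add_mem _ (Submodule.sum_mem _ fun n hn => ?_) (Submodule.sum_mem _ fun i _ => ?_)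
  · rw [Finset.mem_Icc] at hn
    exact Submodule.smul_mem _ _ (hK.gen n (Or.inl (by omega)))
  · exact Submodule.smul_mem _ _ (hK.gen _ (Or.inr ⟨i, rfl⟩))

theorem KD (hA : KA_stmt) : KD_stmt := by
  intro R _ g γ a hK
  have hlast : ∀ n : ℤ, (n ≤ -2 ∨ ∃ i, n = (γ i : ℤ) - 1) → ∀ f ∈ AA γ a, res (f * om γ a n) = 0 := by
    intro n hn f hf
    induction hf using Submodule.span_induction with
    | mem x hx =>
      obtain ⟨r, hr, rfl⟩ := hx
      exact DJ0_fst γ a hK.coef n hn r hr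
    | zero => rw [zero_mul, res_zero]
    | add x y _ _ hx hy => rw [add_mul, res_add, hx, hy, add_zero]
    | smul c x _ hx => rw [smul_mul_assoc, res_smul, hx, mul_zero]
  have hPS : ∀ i, om γ a ((γ i : ℤ) - 1) ∈ PS R := by
    intro i m hm
    have hi := hK.pos i
    rw [DJ0_cfom, if_neg (by omega)]
    by_cases h : -1 ≤ m ∧ ¬ Gp γ (m + 1).toNat
    · rw [if_pos h]
      have h1 : m = -1 := by omega
      subst h1
      have h2 : ((-1 : ℤ) + 1).toNat = 0 := by norm_num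
      rw [h2, hK.one, cf_one, if_neg (by omega), neg_zero]
    · rw [if_neg h]
  have hdual : ∀ i j, res (mono (-(γ j : ℤ)) 1 * om γ a ((γ i : ℤ) - 1)) = if i = j then 1 else 0 := by
    intro i j
    unfold res
    rw [cf_mono_mul, one_mul]
    have h1 : (-1 - -(γ j : ℤ)) = (γ j : ℤ) - 1 := by ring
    rw [h1, DJ0_cfS γ a _ _ (Or.inr ⟨j, rfl⟩)]
    by_cases h : i = j
    · rw [if_pos h, if_pos (by rw [h])]
    · rw [if_neg h, if_neg]
      intro h'
      apply h
      apply hK.inj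
      omega
  refine ⟨fun i => hK.gen _ (Or.inr ⟨i, rfl⟩), hPS, hdual, ?_, hlast⟩
  intro x hx
  obtain ⟨α, hα, c, o, ho, hxe⟩ := (hA R g γ a hK).1 x
  have ho' : o ∈ PS R := GE_mono (by norm_num) ho
  have hc : ∀ i, c i = 0 := by
    intro i
    have h1 := hx i
    rw [hxe, add_mul, add_mul, res_add, res_add, hlast _ (Or.inr ⟨i, rfl⟩) α hα,
      res_PS (PS_mul ho' (hPS i)), Finset.sum_mul, res_sum] at h1
    have h2 : ∀ j ∈ Finset.univ, res (mono (-(γ j : ℤ)) (c j) * om γ a ((γ i : ℤ) - 1)) = if j = i then c j else 0 := by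
      intro j _
      have h3 : mono (-(γ j : ℤ)) (c j) = c j • mono (-(γ j : ℤ)) 1 := by
        rw [smul_mono, mul_one]
      rw [h3, smul_mul_assoc, res_smul, hdual i j]
      by_cases h : i = j
      · rw [if_pos h, if_pos h.symm, mul_one]
      · rw [if_neg h, if_neg (fun h' => h h'.symm), mul_zero]
    rw [Finset.sum_congr rfl h2, Finset.sum_ite_eq', if_pos (Finset.mem_univ _)] at h1
    simpa using h1
  refine ⟨α, hα, o, ho', ?_⟩
  rw [hxe]
  have : ∑ i, mono (-(γ i : ℤ)) (c i) = 0 := by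
    refine Finset.sum_eq_zero fun i _ => ?_
    rw [hc i, mono_zero]
  rw [this, add_zero]

end AN
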