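import Pool.Agent.helper48.AN.SpecD

/-! # Project an, modules CC, DZ -/

namespace AN

open scoped Classical
open MvPowerSeries (constantCoeff coeff)

theorem CC : CC_stmt := by
  intro p hp R _ _ f η ζ y hζ
  have hp0 : 0 < p := hp.out.pos
  have h1 : f ^ p * dd y = dd (f ^ p * y) := by
    rw [dd_mul, dd_pow_char p f p dvd_rfl, zero_mul, zero_add]
  have h2 : f ^ p * ζ = mono ((p : ℤ) - 1) 1 * (f * η) ^ p + dd (f ^ p * y) := by
    rw [hζ, mul_add, h1, mul_pow]; ring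
  rw [h2, res_add, res_dd, add_zero]
  unfold res
  rw [cf_mono_mul, one_mul]
  have h3 : (-1 - ((p : ℤ) - 1)) = -(p : ℤ) := by ring
  have hpz : (p : ℤ) ≠ 0 := by exact_mod_cast hp0.ne'
  rw [h3, cf_pow_char p, if_pos (dvd_neg.mpr dvd_rfl), Int.neg_ediv_of_dvd dvd_rfl, Int.ediv_self hpz]

theorem DZ (hH : DH_stmt) (hI : DI_stmt) (hJ : DJ_stmt) (hL : DL_stmt) : DZ_stmt := by
  intro p _ k _ _ N g γ a ν τ hK hT
  obtain ⟨A, hA⟩ := hH k N g γ a hK (fun i => mono (-(ν i : ℤ)) (1 : k))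
  have hD : IsDef γ a (fun i => mono (-(ν i : ℤ)) (1 : k)) A := hA
  obtain ⟨h1, h2⟩ := hI k N g γ a hK _ A hD
  have h3 := hJ p k N g γ a hK _ A hD
  obtain ⟨T, θ, M, h4, h5, h6, h7⟩ := hL k N g γ a ν τ hK hT A hD
  exact ⟨A, T, θ, M, ⟨hK.inj, hK.pos, hA.1, hA.2.1, h1, h2, h3⟩, hA.2.2.1, h4, h5, h6, h7⟩

end AN
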